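import Pool.Agent.H648.Q.Defs2
import Pool.Graph.R_seed8.W571.GS.Mom

/-!
Project Q648 (helper648), MOMR: moments for general multiplicative functions, real quadratic orders.
Port of `Pool.Graph.R_seed8.W571.GS.Mom`.
-/

set_option autoImplicit false

namespace Pool.Agent.H400.Q648

open Finset Filter
open Pool.Agent.H376R2.MR (FK cell ge smoo_ge_le smoo_sigma_cell smoo_lcm_sum smoo_prod_dvd
  mom_w_nonneg mom_w_le_one)
open Pool.Agent.W78.GR hiding GG PE S_MOM0 S_MOMP S_MOM S_CELLE S_DEC S_MR S_PAIR S_SC S_U0 sedge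
open Pool.Agent.W571.GR hiding momp_of mom0_of mom_of coef_norm cfG prod_expand
open Pool.Agent.H648.Q2.R (Pf GG PE S_MOM0 S_MOMP S_MOM)

variable {t c : ℤ} {F : Qd t c → ℤ} {η : (Qd t c)ˣ} {Ap Bp M : ℕ → Prop} {E : ℕ} {ρ : ℕ → ℤ}
  {ϖ : ℕ → Qd t c}

lemma norm_F (hF : Pf η F) (z : Qd t c) : ‖(F z : ℂ)‖ ≤ 1 := by
  rw [Complex.norm_intCast]
  exact_mod_cast hF.le z

lemma abs_F (hF : Pf η F) (z : Qd t c) : |((F z : ℤ) : ℝ)| ≤ 1 := by
  exact_mod_cast hF.le z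

open scoped Classical in
/-- the coefficient of `P ^ ℓ` -/
noncomputable def FGF (F : Qd t c → ℤ) (η : (Qd t c)ˣ) (M : ℕ → Prop) (ϖ : ℕ → Qd t c) (H r ℓ : ℕ)
    (z : Qd t c) : ℝ :=
  ∑ τ ∈ (TT M H r ℓ).filter (fun τ => gg η ϖ τ = z), ∏ i, (F (ϖ (τ i)) : ℝ) * (1 / (τ i : ℝ))

lemma FGF_le (hF : Pf η F) (H r ℓ : ℕ) (z : Qd t c) : |FGF F η M ϖ H r ℓ z| ≤ FF η M ϖ H r ℓ z := by
  classical
  unfold FGF FF
  refine (Finset.abs_sum_le_sum_abs _ _).trans (Finset.sum_le_sum fun τ _ => ?_)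
  rw [Finset.abs_prod]
  refine Finset.prod_le_prod (fun i _ => abs_nonneg _) fun i _ => ?_
  rw [abs_mul]
  rw [abs_of_nonneg (by positivity : (0 : ℝ) ≤ 1 / (τ i : ℝ))]
  exact mul_le_of_le_one_left (by positivity) (abs_F hF _)

lemma PE_powF (U : Un t c η) (hE : Ele t c Ap Bp M E ρ ϖ) (H r ℓ : ℕ) (k : ℤ) :
    PE η F M ϖ H r k ^ ℓ =
      DPG η (SZ η M ϖ H r ℓ) (fun z => (-1) ^ ℓ * (FGF F η M ϖ H r ℓ z : ℂ)) k := by
  classical
  unfold PE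
  rw [neg_pow, Finset.sum_pow']
  have h1 : ∑ p ∈ Fintype.piFinset fun _ : Fin ℓ => cellM M H r,
      ∏ i, (F (ϖ (p i)) : ℂ) * ps η k (ϖ (p i)) / ((p i : ℕ) : ℂ) =
      ∑ τ ∈ TT M H r ℓ, ps η k (gg η ϖ τ) *
        ((∏ i, (F (ϖ (τ i)) : ℝ) * (1 / (τ i : ℝ)) : ℝ) : ℂ) := by
    unfold TT
    refine Finset.sum_congr rfl fun τ hτ => ?_
    have hMi : ∀ i, M (τ i) := fun i =>
      (mem_cellM ((Fintype.mem_piFinset.1 hτ) i)).1
    have htp : ∀ i ∈ (Finset.univ : Finset (Fin ℓ)), tp (ϖ (τ i)) := fun i _ =>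
      (hE.elt _ (hMi i)).2.2
    unfold gg
    rw [U.ps_rep k (tp_prod U.disc _ _ htp), ps_prod U.disc _ _ k htp]
    push_cast
    rw [← Finset.prod_mul_distrib]
    refine Finset.prod_congr rfl fun i _ => ?_
    ring
  rw [h1]
  unfold DPG SZ
  rw [← Finset.sum_fiberwise_of_maps_to (g := gg η ϖ) (t := (TT M H r ℓ).image (gg η ϖ))
    (fun p hp => Finset.mem_image_of_mem _ hp), Finset.mul_sum]
  refine Finset.sum_congr rfl fun z _ => ?_
  unfold FGF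
  push_cast
  rw [mul_assoc, Finset.sum_mul]
  congr 1
  refine Finset.sum_congr ?_ fun τ hτ => ?_
  · congr
  · rw [(Finset.mem_filter.1 hτ).2]
    ring

theorem mompr (hF : Pf η F) (U : Un t c η) (hLS : S_LS t c η) : S_MOMP η F := by
  classical
  intro Ap Bp M E ρ ϖ hE
  obtain ⟨C, hC, hls⟩ := hLS
  refine ⟨2 * C + 12, by linarith, ?_⟩
  intro H r ℓ K hH hK hKe
  have hHpos : (0 : ℝ) < H := by exact_mod_cast hH
  set A : ℝ := Real.exp ((r : ℝ) * ℓ / H) with hA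
  set B : ℝ := Real.exp (((r : ℝ) + 1) * ℓ / H) with hB
  have hA1 : (1 : ℝ) ≤ A := Real.one_le_exp (by positivity)
  have hAB : A ≤ B := by
    apply Real.exp_le_exp.2
    gcongr
    linarith
  have hA0 : 0 < A := by linarith
  have hB0 : 0 < B := by linarith
  have hAe : A = Real.exp ((r : ℝ) / H) ^ ℓ := by
    rw [hA, ← Real.exp_nat_mul]
    congr 1
    ring
  have hBe : B = Real.exp (((r : ℝ) + 1) / H) ^ ℓ := by
    rw [hB, ← Real.exp_nat_mul]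
    congr 1
    ring
  -- tuples
  have hTnm : ∀ τ ∈ TT M H r ℓ, nm (gg η ϖ τ) = ∏ i, τ i := by
    intro τ hτ
    rw [mem_TT] at hτ
    unfold gg
    rw [Un.nm_rep, nm_prod]
    exact Finset.prod_congr rfl fun i _ => (hE.elt _ (mem_cellM (hτ i)).1).1
  have hTlow : ∀ τ ∈ TT M H r ℓ, ∏ i, 1 / (τ i : ℝ) ≤ 1 / A := by
    intro τ hτ
    rw [mem_TT] at hτ
    have hpc : ∏ _i : Fin ℓ, (Real.exp ((r : ℝ) / H))⁻¹ = (Real.exp ((r : ℝ) / H))⁻¹ ^ ℓ := by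
      rw [Finset.prod_const, Finset.card_univ, Fintype.card_fin]
    rw [hAe, one_div, ← inv_pow, ← hpc]
    refine Finset.prod_le_prod (fun i _ => by positivity) fun i _ => ?_
    rw [← one_div]
    exact one_div_le_one_div_of_le (Real.exp_pos _) (cellM_exp hE (hτ i)).2.1
  have hs : SZ η M ϖ H r ℓ ⊆ pball η B := by
    intro z hz
    unfold SZ at hz
    rw [Finset.mem_image] at hz
    obtain ⟨τ, hτ, rfl⟩ := hz
    have hMi : ∀ i, M (τ i) := fun i => (mem_cellM (mem_TT.1 hτ i)).1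
    have htp : ∀ i ∈ (Finset.univ : Finset (Fin ℓ)), tp (ϖ (τ i)) := fun i _ =>
      (hE.elt _ (hMi i)).2.2
    rw [U.mem_pball]
    refine ⟨U.rep_fd (tp_prod U.disc _ _ htp),
      Un.prim_rep.2 (prim_prod hE _ τ fun i _ => hMi i), ?_⟩
    rw [hTnm τ hτ, hBe]
    push_cast
    have hpc : ∏ _i : Fin ℓ, Real.exp (((r : ℝ) + 1) / H) = Real.exp (((r : ℝ) + 1) / H) ^ ℓ := by
      rw [Finset.prod_const, Finset.card_univ, Fintype.card_fin]
    rw [← hpc]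
    exact Finset.prod_le_prod (fun i _ => by positivity)
      fun i _ => (cellM_exp hE (mem_TT.1 hτ i)).2.2
  have hm := hls B K (SZ η M ϖ H r ℓ) (fun z => (-1) ^ ℓ * (FGF F η M ϖ H r ℓ z : ℂ)) (hA1.trans hAB)
    hK hs
  have hFle : ∀ z, FF η M ϖ H r ℓ z ≤ (ℓ.factorial : ℝ) ^ 2 * (1 / A) := by
    intro z
    unfold FF
    calc ∑ τ ∈ (TT M H r ℓ).filter (fun τ => gg η ϖ τ = z), ∏ i, 1 / (τ i : ℝ)
        ≤ ∑ τ ∈ (TT M H r ℓ).filter (fun τ => gg η ϖ τ = z), 1 / A :=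
          Finset.sum_le_sum fun τ hτ => hTlow τ (Finset.mem_filter.1 hτ).1
      _ = ((TT M H r ℓ).filter (fun τ => gg η ϖ τ = z)).card * (1 / A) := by
          rw [Finset.sum_const, nsmul_eq_mul]
      _ ≤ (ℓ.factorial : ℝ) ^ 2 * (1 / A) := by
          have h1 : ((TT M H r ℓ).filter (fun τ => gg η ϖ τ = z)).card ≤ ℓ.factorial ^ 2 := by
            refine le_trans (Finset.card_le_card ?_) (card_fiber hE H r ℓ (nm z))
            intro τ hτ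
            rw [Finset.mem_filter] at hτ ⊢
            refine ⟨hτ.1, ?_⟩
            rw [← hTnm τ hτ.1, hτ.2]
          have h2 : (((TT M H r ℓ).filter (fun τ => gg η ϖ τ = z)).card : ℝ) ≤
              (ℓ.factorial : ℝ) ^ 2 := by exact_mod_cast h1
          gcongr
  have hFsum : ∑ z ∈ SZ η M ϖ H r ℓ, FF η M ϖ H r ℓ z ≤ 4 ^ ℓ := by
    have h1 : ∑ z ∈ SZ η M ϖ H r ℓ, FF η M ϖ H r ℓ z = mE M H r ^ ℓ := by
      unfold mE
      rw [Finset.sum_pow']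
      unfold FF SZ
      rw [Finset.sum_fiberwise_of_maps_to (fun p hp => Finset.mem_image_of_mem _ hp)]
      rfl
    rw [h1]
    exact pow_le_pow_left₀ (mE_nonneg _ _ _) (mE_le hE hH r) _
  have hsum : ∑ z ∈ SZ η M ϖ H r ℓ, ‖(-1) ^ ℓ * (FGF F η M ϖ H r ℓ z : ℂ)‖ ^ 2 ≤
      (ℓ.factorial : ℝ) ^ 2 * (1 / A) * 4 ^ ℓ := by
    calc ∑ z ∈ SZ η M ϖ H r ℓ, ‖(-1) ^ ℓ * (FGF F η M ϖ H r ℓ z : ℂ)‖ ^ 2
        ≤ ∑ z ∈ SZ η M ϖ H r ℓ, (ℓ.factorial : ℝ) ^ 2 * (1 / A) * FF η M ϖ H r ℓ z := by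
          refine Finset.sum_le_sum fun z _ => ?_
          rw [norm_mul, norm_pow, norm_neg, norm_one, one_pow, one_mul, Complex.norm_real,
            Real.norm_eq_abs, pow_two]
          exact mul_le_mul ((FGF_le hF H r ℓ z).trans (hFle z)) (FGF_le hF H r ℓ z)
            (abs_nonneg _) ((FF_nonneg _ _ _ _).trans (hFle z))
      _ = (ℓ.factorial : ℝ) ^ 2 * (1 / A) * ∑ z ∈ SZ η M ϖ H r ℓ, FF η M ϖ H r ℓ z := by
          rw [Finset.mul_sum]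
      _ ≤ (ℓ.factorial : ℝ) ^ 2 * (1 / A) * 4 ^ ℓ := by gcongr
  have hBA : B / A ≤ 3 ^ ℓ := by
    rw [hA, hB, ← Real.exp_sub]
    have h1 : ((r : ℝ) + 1) * ℓ / H - (r : ℝ) * ℓ / H = ℓ / H := by ring
    rw [h1]
    have h2 : (ℓ : ℝ) / H ≤ ℓ := by
      rw [div_le_iff₀ hHpos]
      have : (1 : ℝ) ≤ H := by exact_mod_cast hH
      nlinarith [(Nat.cast_nonneg ℓ : (0 : ℝ) ≤ ℓ)]
    calc Real.exp ((ℓ : ℝ) / H) ≤ Real.exp (ℓ : ℝ) := Real.exp_le_exp.2 h2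
      _ = Real.exp 1 ^ ℓ := by rw [← Real.exp_nat_mul, mul_one]
      _ ≤ 3 ^ ℓ := by
          have := Real.exp_one_lt_three
          gcongr
  have hfac : (1 : ℝ) ≤ ℓ.factorial := by exact_mod_cast Nat.succ_le_of_lt ℓ.factorial_pos
  calc ∑ k ∈ FK K, ‖PE η F M ϖ H r k‖ ^ (2 * ℓ)
      ≤ ∑ k ∈ FK K, ‖DPG η (SZ η M ϖ H r ℓ) (fun z => (-1) ^ ℓ * (FGF F η M ϖ H r ℓ z : ℂ)) k‖ ^ 2 := by
        apply Finset.sum_le_sum
        intro k _
        rw [← PE_powF U hE, norm_pow, ← pow_mul, mul_comm ℓ 2]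
    _ ≤ _ := hm
    _ ≤ C * (B + B) * ((ℓ.factorial : ℝ) ^ 2 * (1 / A) * 4 ^ ℓ) := by
        have hKB : (K : ℝ) ≤ B := hKe.trans hAB
        gcongr
    _ = 2 * C * (B / A) * 4 ^ ℓ * (ℓ.factorial : ℝ) ^ 2 := by
        field_simp
        ring
    _ ≤ 2 * C * 3 ^ ℓ * 4 ^ ℓ * (ℓ.factorial : ℝ) ^ 2 := by gcongr
    _ = 2 * C * 12 ^ ℓ * (ℓ.factorial : ℝ) ^ 2 := by
        rw [mul_assoc (2 * C), ← mul_pow]
        norm_num
    _ ≤ (2 * C + 12) * (2 * C + 12) ^ ℓ * (ℓ.factorial : ℝ) ^ 8 := by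
        have h8 : (ℓ.factorial : ℝ) ^ 2 ≤ (ℓ.factorial : ℝ) ^ 8 :=
          pow_le_pow_right₀ hfac (by norm_num)
        gcongr <;> linarith
    _ = (2 * C + 12) ^ (ℓ + 1) * (ℓ.factorial : ℝ) ^ 8 := by
        rw [pow_succ]
        ring

lemma coef_norm (hF : Pf η F) (Z : ℝ) (z : Qd t c) :
    ‖(F z : ℂ) * (bg Z z : ℂ)‖ ≤ 1 / nm z := by
  rw [norm_mul, Complex.norm_real, Real.norm_of_nonneg (bg_nonneg Z z)]
  exact (mul_le_of_le_one_left (bg_nonneg Z z) (norm_F hF z)).trans (bg_le Z z)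

open scoped Classical in
lemma GG_filter' (Z : ℝ) (k : ℤ) :
    GG η F Z k = DPG η ((pball η (Real.exp 1 * Z)).filter (fun z => bg Z z ≠ 0))
      (fun z => (F z : ℂ) * (bg Z z : ℂ)) k := by
  unfold GG DPG
  rw [Finset.sum_filter_of_ne]
  intro n _ hn h0
  apply hn
  simp only [h0]
  simp

theorem mom0r (hF : Pf η F) (U : Un t c η) (hLS : S_LS t c η) (hLAT : S_LAT t c η) :
    S_MOM0 η F := by
  classical
  obtain ⟨C, hC, hls⟩ := hLS
  obtain ⟨C', hC', hcard⟩ := card_ball_le hLAT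
  set e := Real.exp 1 with he
  have he0 : 0 < e := Real.exp_pos 1
  have he1 : 1 ≤ e := Real.one_le_exp zero_le_one
  refine ⟨C * C' * e ^ 4, by positivity, ?_⟩
  intro K Z hZ hK
  have hZ0 : 0 < Z := by linarith
  have heZ : 1 ≤ e * Z := by nlinarith
  set s := (pball η (e * Z)).filter (fun z => bg Z z ≠ 0) with hs
  have hmem : ∀ z ∈ s, prim z ∧ Z / e ≤ (nm z : ℝ) ∧ (nm z : ℝ) ≤ e * Z := by
    intro z hz
    rw [hs, Finset.mem_filter, U.mem_pball] at hz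
    obtain ⟨h0, h1, h2⟩ := bg_ne hz.2
    have hpos : (0 : ℝ) < nm z := by exact_mod_cast h0
    refine ⟨hz.1.2.1, ?_, hz.1.2.2⟩
    rw [← Real.log_le_log_iff (by positivity) hpos, Real.log_div hZ0.ne' he0.ne', he,
      Real.log_exp]
    exact h1
  have hm := hls (e * Z) K s (fun z => (F z : ℂ) * (bg Z z : ℂ)) heZ hK
    (Finset.filter_subset _ _)
  have htcard : (s.card : ℝ) ≤ C' * (e * Z) := by
    refine le_trans ?_ (hcard (e * Z) heZ)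
    have : s.card ≤ (ball η (e * Z)).card := by
      calc s.card ≤ (pball η (e * Z)).card := Finset.card_filter_le _ _
        _ ≤ (ball η (e * Z)).card := by
          unfold pball
          exact Finset.card_filter_le _ _
    exact_mod_cast this
  have hsum : ∑ z ∈ s, ‖(F z : ℂ) * (bg Z z : ℂ)‖ ^ 2 ≤ C' * (e * Z) * (e / Z) ^ 2 := by
    calc ∑ z ∈ s, ‖(F z : ℂ) * (bg Z z : ℂ)‖ ^ 2 ≤ ∑ _z ∈ s, (e / Z) ^ 2 := by
          apply Finset.sum_le_sum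
          intro z hz
          have hn1 := (hmem z hz).2.1
          have hze : 0 < Z / e := by positivity
          have hnpos : (0 : ℝ) < nm z := by linarith
          have hinv : 1 / (nm z : ℝ) ≤ e / Z := by
            rw [div_le_div_iff₀ hnpos hZ0, one_mul]
            rw [div_le_iff₀ he0] at hn1
            linarith
          calc ‖(F z : ℂ) * (bg Z z : ℂ)‖ ^ 2 ≤ (1 / (nm z : ℝ)) ^ 2 := by
                gcongr
                exact coef_norm hF Z z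
            _ ≤ (e / Z) ^ 2 := by gcongr
      _ = s.card * (e / Z) ^ 2 := by rw [Finset.sum_const, nsmul_eq_mul]
      _ ≤ C' * (e * Z) * (e / Z) ^ 2 := by gcongr
  calc ∑ k ∈ FK K, ‖GG η F Z k‖ ^ 2
      = ∑ k ∈ FK K, ‖DPG η s (fun z => (F z : ℂ) * (bg Z z : ℂ)) k‖ ^ 2 := by
        apply Finset.sum_congr rfl
        intro k _
        rw [GG_filter', hs]
    _ ≤ _ := hm
    _ ≤ C * (K + e * Z) * (C' * (e * Z) * (e / Z) ^ 2) := by gcongr
    _ = C * C' * e ^ 3 * (e + K / Z) := by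
        field_simp
        ring
    _ ≤ C * C' * e ^ 3 * (e + e * (K / Z)) := by
        gcongr
        have : (0 : ℝ) ≤ K / Z := by positivity
        nlinarith
    _ = C * C' * e ^ 4 * (1 + K / Z) := by ring

/-- coefficient of an index pair -/
noncomputable def cfG (F : Qd t c → ℤ) (ϖ : ℕ → Qd t c) (ℓ : ℕ) (Z : ℝ) (x : (Fin ℓ → ℕ) × Qd t c) : ℂ :=
  ((∏ i, (F (ϖ (x.1 i)) : ℂ)) * ((F x.2 : ℂ) * (bg Z x.2 : ℂ))) / ((∏ i, x.1 i : ℕ) : ℂ)

theorem PE_powT' (U : Un t c η) (hE : Ele t c Ap Bp M E ρ ϖ) (H r ℓ : ℕ) (k : ℤ) :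
    PE η F M ϖ H r k ^ ℓ = (-1) ^ ℓ * ∑ m ∈ Fintype.piFinset (fun _ : Fin ℓ => cellM M H r),
      (∏ i, (F (ϖ (m i)) : ℂ)) * ps η k (∏ i, ϖ (m i)) / ((∏ i, m i : ℕ) : ℂ) := by
  unfold PE
  rw [neg_pow, Finset.sum_pow']
  congr 1
  apply Finset.sum_congr rfl
  intro m hm
  rw [Fintype.mem_piFinset] at hm
  rw [Finset.prod_div_distrib, Finset.prod_mul_distrib, ps_prod U.disc _ _ k
    (fun i _ => (hE.elt _ (mem_cellM (hm i)).1).2.2)]
  congr 1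
  push_cast
  rfl

theorem GG_filterT' (η : (Qd t c)ˣ) (Z : ℝ) (k : ℤ) :
    GG η F Z k = ∑ z ∈ SG η Z, (F z : ℂ) * (bg Z z : ℂ) * ps η k z := by
  unfold GG DPG SG
  rw [Finset.sum_filter_of_ne]
  intro n _ hn h0
  apply hn
  simp only [h0]
  simp

theorem prod_expand (U : Un t c η) (hE : Ele t c Ap Bp M E ρ ϖ) (H r ℓ : ℕ) {Z : ℝ}
    (hZ : 0 < Z) (k : ℤ) :
    PE η F M ϖ H r k ^ ℓ * GG η F Z k =
      (-1) ^ ℓ * ∑ x ∈ PrG η M H r ℓ Z, cfG F ϖ ℓ Z x * ps η k ((∏ i, ϖ (x.1 i)) * x.2) := by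
  rw [PE_powT' U hE H r ℓ k, GG_filterT', mul_assoc, Finset.sum_mul_sum, ← Finset.sum_product']
  congr 1
  apply Finset.sum_congr rfl
  intro x hx
  rw [mem_product, Fintype.mem_piFinset] at hx
  unfold cfG
  rw [ps_mul U.disc k (tp_prod U.disc _ _ fun i _ => (hE.elt _ (mem_cellM (hx.1 i)).1).2.2)
    (mem_SG U hZ hx.2).2.1.1]
  ring

lemma prod_F_norm (hF : Pf η F) {ℓ : ℕ} (ϖ : ℕ → Qd t c) (τ : Fin ℓ → ℕ) :
    ‖∏ i, (F (ϖ (τ i)) : ℂ)‖ ≤ 1 := by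
  rw [norm_prod]
  exact Finset.prod_le_one (fun i _ => norm_nonneg _) fun i _ => norm_F hF _

theorem momr (hF : Pf η F) (U : Un t c η) (hLS : S_LS t c η) (_hLAT : S_LAT t c η)
    (hLATI : S_LATI t c η) : S_MOM η F := by
  classical
  intro Ap Bp M E ρ ϖ hE
  obtain ⟨C₁, hC₁, hls⟩ := hLS
  obtain ⟨C₂, hC₂, htau'⟩ := tau_sum U hLATI
  obtain ⟨C₃, hC₃, hPs⟩ := Pset_sum
  have htau := htau' Ap Bp M E ρ ϖ hE
  -- the constant
  set G : ℝ := Real.exp (2 * (C₃ * (E + 1))) with hG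
  have hG0 : 0 < G := Real.exp_pos _
  set B₀ : ℝ := C₁ * C₂ * G ^ 5 * 2 * Real.exp 2 * 3 with hB0
  set C : ℝ := max 1 (max B₀ (2 * Real.exp 1)) with hCdef
  have hC1 : 1 ≤ C := le_max_left _ _
  have hCB : B₀ ≤ C := (le_max_left _ _).trans (le_max_right _ _)
  have hCe : 2 * Real.exp 1 ≤ C := (le_max_right _ _).trans (le_max_right _ _)
  refine ⟨C, hC1, ?_⟩
  intro H r ℓ K Z hH hZ hK hKe
  set e := Real.exp 1 with he
  have he0 : 0 < e := Real.exp_pos 1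
  have he3 : e < 3 := Real.exp_one_lt_three
  have he1 : 1 ≤ e := Real.one_le_exp zero_le_one
  have hZ0 : 0 < Z := by linarith
  have hHpos : (0 : ℝ) < H := by exact_mod_cast hH
  have hH1 : (1 : ℝ) ≤ H := by exact_mod_cast hH
  set A : ℝ := Real.exp ((r : ℝ) * ℓ / H) with hA
  set B : ℝ := Real.exp (((r : ℝ) + 1) * ℓ / H) with hB
  have hA1 : (1 : ℝ) ≤ A := Real.one_le_exp (by positivity)
  have hAB : A ≤ B := by
    apply Real.exp_le_exp.2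
    gcongr
    linarith
  have hA0 : 0 < A := by linarith
  have hB0' : 0 < B := by linarith
  have hBA : B = A * Real.exp ((ℓ : ℝ) / H) := by
    rw [hA, hB, ← Real.exp_add]
    congr 1
    ring
  set M₀ : ℝ := Z / e * A with hM0
  set M₁ : ℝ := e * Z * B with hM1
  have hZe : (1 : ℝ) ≤ Z / e := by
    rw [le_div_iff₀ he0]
    linarith
  have hM0p : 0 < M₀ := by positivity
  have hM01 : 1 ≤ M₀ := by nlinarith
  have hM1eq : M₁ = M₀ * (e ^ 2 * Real.exp ((ℓ : ℝ) / H)) := by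
    rw [hM1, hM0, hBA]
    field_simp
  have hfac : 1 ≤ e ^ 2 * Real.exp ((ℓ : ℝ) / H) := by
    have h1 : 1 ≤ e ^ 2 := one_le_pow₀ he1
    have h2 : 1 ≤ Real.exp ((ℓ : ℝ) / H) := Real.one_le_exp (by positivity)
    nlinarith
  have hM0M1 : M₀ ≤ M₁ := by
    rw [hM1eq]
    nlinarith
  have hM11 : 1 ≤ M₁ := hM01.trans hM0M1
  have hKM : (K : ℝ) ≤ e * M₀ := by
    calc (K : ℝ) ≤ Z * A := hKe
      _ = e * (Z / e * A) := by field_simp
  -- the modulus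
  set N : ℕ := Big Ap Bp E H r ℓ with hN
  have hNs := big_sm Ap Bp E H r ℓ
  rw [← hN] at hNs
  have hN0 : N ≠ 0 := hNs.1
  have hdvd : ∀ p ∈ Fintype.piFinset (fun _ : Fin ℓ => cellM M H r), (∏ i, p i) ∣ N :=
    fun p hp => tuple_dvd_big hE hp
  have hsig : ∑ d ∈ N.divisors, 1 / (d : ℝ) ≤ G := by
    refine le_trans (smoo_sigma_cell _ (fun p hp => (mem_Pset.1 hp).2.2.1) ℓ)
      (Real.exp_le_exp.mpr ?_)
    have := hPs Ap Bp E H r hH
    linarith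
  have hsig0 : 0 ≤ ∑ d ∈ N.divisors, 1 / (d : ℝ) := sum_nonneg fun _ _ => by positivity
  -- the tuples
  have htup : ∀ p ∈ Fintype.piFinset (fun _ : Fin ℓ => cellM M H r),
      Sm Ap Bp (∏ i, p i) ∧ nm (∏ i, ϖ (p i)) = ∏ i, p i ∧
      lat (∏ i, p i) (ρ (∏ i, p i)) (∏ i, ϖ (p i)) ∧ tp (∏ i, ϖ (p i)) := by
    intro p hp
    rw [Fintype.mem_piFinset] at hp
    have h1 : ∀ i ∈ (univ : Finset (Fin ℓ)), M (p i) := fun i _ => (mem_cellM (hp i)).1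
    exact ⟨sm_prod _ _ fun i hi => sm_M hE (h1 i hi), nm_prod_ele hE _ _ h1,
      lat_prod_ele hE _ _ h1, tp_prod U.disc _ _ fun i hi => (hE.elt _ (h1 i hi)).2.2⟩
  -- contents
  have hcont : ∀ x : (Fin ℓ → ℕ) × Qd t c, ∃ (n m : ℕ) (u : Qd t c) (j : ℤ),
      x ∈ PrG η M H r ℓ Z → (∏ i, x.1 i) = n * m ∧ prim u ∧ fd η u ∧
      ((η ^ j : (Qd t c)ˣ) : Qd t c) * ((∏ i, ϖ (x.1 i)) * x.2) = (n : Qd t c) * u ∧
      lat m (ρ m) u := by
    intro x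
    by_cases hx : x ∈ PrG η M H r ℓ Z
    · have hx' := hx
      unfold PrG at hx'
      rw [mem_product] at hx'
      obtain ⟨h1, h2, h3, h4⟩ := htup _ hx'.1
      obtain ⟨n, m, u, j, h⟩ := content U hE h1 h2 h3 h4 (mem_SG U hZ0 hx'.2).1
        (mem_SG U hZ0 hx'.2).2.1.1
      exact ⟨n, m, u, j, fun _ => h⟩
    · exact ⟨0, 0, 0, 0, fun h => absurd h hx⟩
  choose cf mf uf jf hf using hcont
  -- numerical facts for an index pair
  have hnum : ∀ x ∈ PrG η M H r ℓ Z, 0 < ((∏ i, x.1 i : ℕ) : ℝ) ∧ 0 < (nm x.2 : ℝ) ∧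
      0 < (cf x : ℝ) ∧
      ((∏ i, x.1 i : ℕ) : ℝ) * nm x.2 = (cf x : ℝ) ^ 2 * nm (uf x) ∧
      M₀ ≤ (cf x : ℝ) ^ 2 * nm (uf x) ∧ (cf x : ℝ) ^ 2 * nm (uf x) ≤ M₁ := by
    intro x hx
    obtain ⟨h1, h2, h2', h3, h4⟩ := hf x hx
    have hx' := hx
    unfold PrG at hx'
    rw [mem_product] at hx'
    obtain ⟨h5, h5', h6, h7⟩ := mem_SG U hZ0 hx'.2
    obtain ⟨g1, g2, g3, g4⟩ := htup _ hx'.1
    have h0 : (∏ i, x.1 i) ≠ 0 := g1.1
    have hP : (0 : ℝ) < ((∏ i, x.1 i : ℕ) : ℝ) := by exact_mod_cast Nat.pos_of_ne_zero h0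
    have hz : (0 : ℝ) < nm x.2 := nm_posR U.disc h5'.1
    have hc : 0 < (cf x : ℝ) := by
      have : cf x ≠ 0 := by
        intro hc0
        rw [hc0, zero_mul] at h1
        exact h0 h1
      exact_mod_cast Nat.pos_of_ne_zero this
    have hid : ((∏ i, x.1 i : ℕ) : ℝ) * nm x.2 = (cf x : ℝ) ^ 2 * nm (uf x) := by
      have := congrArg nm h3
      rw [Un.nm_zpow_mul, nm_mul, nm_mul, nm_natCast, g2] at this
      exact_mod_cast this
    have hlogs := tuple_log hE hx'.1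
    have hPA : A ≤ ((∏ i, x.1 i : ℕ) : ℝ) := by
      rw [hA, ← Real.le_log_iff_exp_le hP]
      exact hlogs.1
    have hPB : ((∏ i, x.1 i : ℕ) : ℝ) ≤ B := by
      rw [hB, ← Real.log_le_iff_le_exp hP]
      exact hlogs.2
    refine ⟨hP, hz, hc, hid, ?_, ?_⟩
    · rw [← hid, hM0]
      calc Z / e * A ≤ nm x.2 * ((∏ i, x.1 i : ℕ) : ℝ) := by gcongr
        _ = _ := by ring
    · rw [← hid, hM1]
      calc ((∏ i, x.1 i : ℕ) : ℝ) * nm x.2 ≤ B * (e * Z) := by gcongr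
        _ = _ := by ring
  -- the pieces
  set Pc : ℕ → Finset ((Fin ℓ → ℕ) × Qd t c) :=
    fun n => (PrG η M H r ℓ Z).filter (fun x => cf x = n) with hPc
  set tc : ℕ → Finset (Qd t c) := fun n => (Pc n).image uf with htc
  set bc : ℕ → Qd t c → ℂ := fun n u => ∑ x ∈ (Pc n).filter (fun x => uf x = u), cfG F ϖ ℓ Z x
    with hbc
  have hpieces : ∀ k : ℤ, ‖PE η F M ϖ H r k ^ ℓ * GG η F Z k‖ ≤
      ‖∑ n ∈ N.divisors, DPG η (tc n) (bc n) k‖ := by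
    intro k
    apply le_of_eq
    rw [prod_expand U hE H r ℓ hZ0 k, norm_mul, norm_pow, norm_neg, norm_one, one_pow, one_mul]
    congr 1
    have hmaps : ∀ x ∈ PrG η M H r ℓ Z, cf x ∈ N.divisors := by
      intro x hx
      obtain ⟨h1, h2, h2', h3, h4⟩ := hf x hx
      have hx' := hx
      unfold PrG at hx'
      rw [mem_product] at hx'
      rw [Nat.mem_divisors]
      exact ⟨(Dvd.intro _ h1.symm).trans (hdvd _ hx'.1), hN0⟩
    rw [← sum_fiberwise_of_maps_to hmaps]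
    apply sum_congr rfl
    intro n _
    unfold DPG
    rw [← sum_fiberwise_of_maps_to (s := (PrG η M H r ℓ Z).filter (fun x => cf x = n))
      (t := tc n) (g := uf) (fun x hx => mem_image_of_mem _ hx)]
    apply sum_congr rfl
    intro u _
    rw [hbc]
    simp only [sum_mul]
    apply sum_congr rfl
    intro x hx
    rw [mem_filter, mem_filter] at hx
    obtain ⟨⟨hx1, hx2⟩, hx3⟩ := hx
    obtain ⟨h1, h2, h2', h3, h4⟩ := hf x hx1
    have hx' := hx1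
    unfold PrG at hx'
    rw [mem_product] at hx'
    obtain ⟨g1, g2, g3, g4⟩ := htup _ hx'.1
    have hc0 : 0 < cf x := by exact_mod_cast (hnum x hx1).2.2.1
    rw [← U.ps_zpow_mul (jf x) k (tp_mul U.disc g4 (mem_SG U hZ0 hx'.2).2.1.1), h3,
      ps_mul U.disc k (tp_natCast hc0) h2'.1, ps_natCast hc0, one_mul, hx3]
  have hmem : ∀ n, ∀ u ∈ tc n, 0 < (n : ℝ) ∧ (prim u ∧ fd η u) ∧ M₀ ≤ (n : ℝ) ^ 2 * nm u ∧
      (n : ℝ) ^ 2 * nm u ≤ M₁ := by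
    intro n u hu
    rw [htc] at hu
    obtain ⟨x, hx, rfl⟩ := mem_image.1 hu
    rw [hPc, mem_filter] at hx
    obtain ⟨hx1, rfl⟩ := hx
    obtain ⟨n1, n2, n3, n4, n5, n6⟩ := hnum x hx1
    exact ⟨n3, ⟨(hf x hx1).2.1, (hf x hx1).2.2.1⟩, n5, n6⟩
  -- coefficients
  have hcoef : ∀ n, ∀ u ∈ tc n, ‖bc n u‖ ≤
      (ℓ.factorial : ℝ) ^ 2 * tauL ρ N u / ((n : ℝ) ^ 2 * nm u) := by
    intro n u hu
    obtain ⟨m1, m2, m3, m4⟩ := hmem n u hu
    have hden : 0 < (n : ℝ) ^ 2 * nm u := lt_of_lt_of_le hM0p m3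
    have hcount := count_pairs (H := H) (r := r) (ℓ := ℓ) (Z := Z) U hE hZ0 jf cf mf uf
      (fun x hx => ⟨(hf x hx).1, (hf x hx).2.1, (hf x hx).2.2.2.1, (hf x hx).2.2.2.2⟩) n u
    calc ‖bc n u‖ ≤ ∑ x ∈ (Pc n).filter (fun x => uf x = u), ‖cfG F ϖ ℓ Z x‖ := norm_sum_le _ _
      _ ≤ ∑ x ∈ (Pc n).filter (fun x => uf x = u), 1 / ((n : ℝ) ^ 2 * nm u) := by
          apply sum_le_sum
          intro x hx
          rw [hPc, mem_filter, mem_filter] at hx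
          obtain ⟨⟨hx1, hx2⟩, hx3⟩ := hx
          obtain ⟨n1, n2, n3, n4, n5, n6⟩ := hnum x hx1
          unfold cfG
          rw [norm_div, Complex.norm_natCast, norm_mul, ← hx2, ← hx3, ← n4]
          have h1 := (mul_le_of_le_one_left (norm_nonneg _) (prod_F_norm hF ϖ x.1)).trans
            (coef_norm hF Z x.2)
          calc _ ≤ (1 / (nm x.2 : ℝ)) / ((∏ i, x.1 i : ℕ) : ℝ) :=
                div_le_div_of_nonneg_right h1 n1.le
            _ = _ := by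
              rw [div_div, mul_comm]
      _ = (((Pc n).filter (fun x => uf x = u)).card : ℝ) / ((n : ℝ) ^ 2 * nm u) := by
          rw [sum_const, nsmul_eq_mul]
          ring
      _ ≤ _ := by
          apply div_le_div_of_nonneg_right _ hden.le
          exact_mod_cast hcount
  -- the large sieve for one piece
  set Fc : ℝ := C₁ * (K + M₁) * ((ℓ.factorial : ℝ) ^ 4 / M₀ *
    (C₂ * (1 + Real.log (M₁ / M₀)) * G ^ 3)) with hFc
  have hlog0 : 0 ≤ Real.log (M₁ / M₀) := Real.log_nonneg (by rwa [le_div_iff₀ hM0p, one_mul])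
  have hFc0 : 0 ≤ Fc := by positivity
  have hpiece : ∀ n ∈ N.divisors, ∑ k ∈ FK K, ‖DPG η (tc n) (bc n) k‖ ^ 2 ≤ Fc / (n : ℝ) ^ 2 := by
    intro n hn
    have hcpos : 0 < (n : ℝ) := by exact_mod_cast Nat.pos_of_mem_divisors hn
    have hc1 : 1 ≤ (n : ℝ) := by exact_mod_cast Nat.pos_of_mem_divisors hn
    have h1 := hls M₁ K (tc n) (bc n) hM11 hK (by
      intro u hu
      obtain ⟨m1, m2, m3, m4⟩ := hmem n u hu
      rw [U.mem_pball]
      refine ⟨m2.2, m2.1, ?_⟩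
      have hn0 : (0 : ℝ) ≤ nm u := Nat.cast_nonneg _
      nlinarith [one_le_pow₀ (n := 2) hc1])
    have h2 := htau N (M₀ / (n : ℝ) ^ 2) (M₁ / (n : ℝ) ^ 2) (tc n) hNs (by positivity)
      (by gcongr) (by
        intro u hu
        obtain ⟨m1, m2, m3, m4⟩ := hmem n u hu
        refine ⟨m2.2, ?_, ?_⟩
        · rw [div_le_iff₀ (by positivity)]; linarith
        · rw [le_div_iff₀ (by positivity)]; linarith)
    have h3 : M₁ / (n : ℝ) ^ 2 / (M₀ / (n : ℝ) ^ 2) = M₁ / M₀ := by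
      field_simp
    rw [h3] at h2
    have h4 : ∑ u ∈ tc n, ‖bc n u‖ ^ 2 ≤ ((ℓ.factorial : ℝ) ^ 4 / M₀ / (n : ℝ) ^ 2) *
        ∑ u ∈ tc n, (tauL ρ N u : ℝ) ^ 2 / (nm u : ℝ) := by
      rw [mul_sum]
      apply sum_le_sum
      intro u hu
      obtain ⟨m1, m2, m3, m4⟩ := hmem n u hu
      have hu0 : (0 : ℝ) < nm u := nm_posR U.disc m2.2.1
      calc ‖bc n u‖ ^ 2 ≤ ((ℓ.factorial : ℝ) ^ 2 * tauL ρ N u / ((n : ℝ) ^ 2 * nm u)) ^ 2 := by
            gcongr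
            exact hcoef n u hu
        _ = ((ℓ.factorial : ℝ) ^ 4 * (tauL ρ N u : ℝ) ^ 2 / ((n : ℝ) ^ 2 * nm u)) *
            (1 / ((n : ℝ) ^ 2 * nm u)) := by
            field_simp
        _ ≤ ((ℓ.factorial : ℝ) ^ 4 * (tauL ρ N u : ℝ) ^ 2 / ((n : ℝ) ^ 2 * nm u)) * (1 / M₀) := by
            gcongr
        _ = _ := by
            field_simp
    calc _ ≤ _ := h1
      _ ≤ C₁ * (K + M₁) * (((ℓ.factorial : ℝ) ^ 4 / M₀ / (n : ℝ) ^ 2) *
          (C₂ * (1 + Real.log (M₁ / M₀)) * G ^ 3)) := by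
          apply mul_le_mul_of_nonneg_left _ (by positivity)
          refine le_trans h4 ?_
          apply mul_le_mul_of_nonneg_left _ (by positivity)
          refine le_trans h2 ?_
          apply mul_le_mul_of_nonneg_left _ (by positivity)
          exact pow_le_pow_left₀ hsig0 hsig 3
      _ = Fc / (n : ℝ) ^ 2 := by
          rw [hFc]
          ring
  -- Cauchy-Schwarz over the contents
  have hCS : ∀ k : ℤ, ‖∑ n ∈ N.divisors, DPG η (tc n) (bc n) k‖ ^ 2 ≤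
      (∑ n ∈ N.divisors, 1 / (n : ℝ)) * ∑ n ∈ N.divisors, (n : ℝ) * ‖DPG η (tc n) (bc n) k‖ ^ 2 := by
    intro k
    exact cs_div N.divisors (fun n hn => Nat.pos_of_mem_divisors hn)
      (fun n => DPG η (tc n) (bc n) k)
  have htotal : ∑ k ∈ FK K, ‖PE η F M ϖ H r k ^ ℓ * GG η F Z k‖ ^ 2 ≤ G ^ 2 * Fc := by
    calc ∑ k ∈ FK K, ‖PE η F M ϖ H r k ^ ℓ * GG η F Z k‖ ^ 2
        ≤ ∑ k ∈ FK K, ‖∑ n ∈ N.divisors, DPG η (tc n) (bc n) k‖ ^ 2 := by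
          apply sum_le_sum
          intro k _
          exact pow_le_pow_left₀ (norm_nonneg _) (hpieces k) 2
      _ ≤ ∑ k ∈ FK K, (∑ n ∈ N.divisors, 1 / (n : ℝ)) *
          ∑ n ∈ N.divisors, (n : ℝ) * ‖DPG η (tc n) (bc n) k‖ ^ 2 := sum_le_sum fun k _ => hCS k
      _ = (∑ n ∈ N.divisors, 1 / (n : ℝ)) *
          ∑ n ∈ N.divisors, (n : ℝ) * ∑ k ∈ FK K, ‖DPG η (tc n) (bc n) k‖ ^ 2 := by
          rw [← mul_sum, sum_comm]
          simp only [mul_sum]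
      _ ≤ (∑ n ∈ N.divisors, 1 / (n : ℝ)) * ∑ n ∈ N.divisors, (n : ℝ) * (Fc / (n : ℝ) ^ 2) := by
          apply mul_le_mul_of_nonneg_left _ hsig0
          apply sum_le_sum
          intro n hn
          exact mul_le_mul_of_nonneg_left (hpiece n hn) (by positivity)
      _ = (∑ n ∈ N.divisors, 1 / (n : ℝ)) ^ 2 * Fc := by
          rw [pow_two, mul_assoc, sum_mul N.divisors _ Fc]
          congr 1
          apply sum_congr rfl
          intro n hn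
          have hcpos : 0 < (n : ℝ) := by exact_mod_cast Nat.pos_of_mem_divisors hn
          field_simp
      _ ≤ G ^ 2 * Fc := by
          apply mul_le_mul_of_nonneg_right _ hFc0
          exact pow_le_pow_left₀ hsig0 hsig 2
  refine le_trans htotal ?_
  -- numerical bound
  have hℓH : (ℓ : ℝ) / H ≤ ℓ := div_le_self (Nat.cast_nonneg _) hH1
  have hratio : (K + M₁) / M₀ ≤ 2 * (e ^ 2 * e ^ ℓ) := by
    rw [div_le_iff₀ hM0p]
    have h1 : M₁ ≤ M₀ * (e ^ 2 * e ^ ℓ) := by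
      rw [hM1eq]
      have : Real.exp ((ℓ : ℝ) / H) ≤ e ^ ℓ := by
        rw [he, ← Real.exp_nat_mul, mul_one]
        exact Real.exp_le_exp.2 hℓH
      gcongr
    have h2 : (K : ℝ) ≤ M₀ * (e ^ 2 * e ^ ℓ) := by
      have h3 : e ≤ e ^ 2 * e ^ ℓ := by
        have h4 : 1 ≤ e ^ ℓ := one_le_pow₀ he1
        nlinarith
      calc (K : ℝ) ≤ e * M₀ := hKM
        _ ≤ (e ^ 2 * e ^ ℓ) * M₀ := by gcongr
        _ = _ := by ring
    linarith
  have hlogb : 1 + Real.log (M₁ / M₀) ≤ 3 * 2 ^ ℓ := by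
    have h1 : M₁ / M₀ = e ^ 2 * Real.exp ((ℓ : ℝ) / H) := by
      rw [hM1eq]
      field_simp
    rw [h1, Real.log_mul (by positivity) (by positivity), Real.log_exp, Real.log_pow, he,
      Real.log_exp]
    have h2 : (ℓ : ℝ) + 1 ≤ 2 ^ ℓ := by
      have := Nat.lt_two_pow_self (n := ℓ)
      exact_mod_cast this
    have h3 : (1 : ℝ) ≤ 2 ^ ℓ := one_le_pow₀ one_le_two
    push_cast
    linarith
  have hE2 : G ^ 2 * Fc ≤ B₀ * (2 * e) ^ ℓ * (ℓ.factorial : ℝ) ^ 4 := by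
    have h1 : G ^ 2 * Fc = G ^ 5 * C₁ * C₂ * ((K + M₁) / M₀) *
        (1 + Real.log (M₁ / M₀)) * (ℓ.factorial : ℝ) ^ 4 := by
      rw [hFc]
      field_simp
    rw [h1]
    have hexp2 : Real.exp 2 = e ^ 2 := by
      rw [he, ← Real.exp_nat_mul]
      norm_num
    calc _ ≤ G ^ 5 * C₁ * C₂ * (2 * (e ^ 2 * e ^ ℓ)) * (3 * 2 ^ ℓ) *
          (ℓ.factorial : ℝ) ^ 4 := by gcongr
      _ = B₀ * (2 * e) ^ ℓ * (ℓ.factorial : ℝ) ^ 4 := by
          rw [hB0, hexp2, mul_pow]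
          ring
  refine le_trans hE2 ?_
  have hfac1 : (1 : ℝ) ≤ (ℓ.factorial : ℝ) := by exact_mod_cast Nat.factorial_pos ℓ
  have hfac8 : (ℓ.factorial : ℝ) ^ 4 ≤ (ℓ.factorial : ℝ) ^ 8 :=
    pow_le_pow_right₀ hfac1 (by norm_num)
  have h1 : (2 * e) ^ ℓ ≤ C ^ ℓ := pow_le_pow_left₀ (by positivity) hCe ℓ
  have h2 : 0 ≤ B₀ := by positivity
  calc B₀ * (2 * e) ^ ℓ * (ℓ.factorial : ℝ) ^ 4 ≤ C * C ^ ℓ * (ℓ.factorial : ℝ) ^ 8 := by gcongr
    _ = C ^ (ℓ + 1) * (ℓ.factorial : ℝ) ^ 8 := by ring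

end Pool.Agent.H400.Q648
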